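import Pool.Agent.AT10.Stmts2
import Pool.Agent.AT5.Stmts1

/-!
# Squad AT10, row SPS: from idempotents to regular elements
-/

set_option autoImplicit false

open scoped BigOperators

noncomputable section

namespace Pool.Agent.PP.T10.H44

open Pool.Agent.Helper51_AWC Pool.Agent.Helper79_WRA Pool.Agent.PP Pool.Agent.PP.KF
open Pool.Agent.PP.K9 Pool.Agent.PP.K9.H97 Pool.Agent.PP.H75 Pool.Agent.PP.T3 Pool.Agent.PP.T2
open Pool.Agent.PP.T5 Pool.Agent.PP.TB Pool.Agent.PP.T10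
open Pool.Agent.PP.T8 (rs pw fv rd Ip Rv)

attribute [local instance] Ideal.Quotient.field

set_option linter.unusedSectionVars false

section grp

variable {G : Type} [Group G]

/-- the powers of `s` with exponents modulo `m` -/
def sp (s : G) (m : ℕ) (k : ZMod m) : G := s ^ k.val

theorem sp_add {s : G} {m : ℕ} [NeZero m] (hm : orderOf s = m) (k l : ZMod m) :
    sp s m (k + l) = sp s m k * sp s m l := by
  subst hm
  unfold sp
  rw [ZMod.val_add, ← pow_add, pow_mod_orderOf]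

theorem sp_one {s : G} {m : ℕ} [NeZero m] (hm : orderOf s = m) : sp s m 1 = s := by
  subst hm
  unfold sp
  rcases Nat.lt_or_ge 1 (orderOf s) with h | h
  · have : Fact (1 < orderOf s) := ⟨h⟩
    rw [ZMod.val_one, pow_one]
  · have h1 : orderOf s = 1 := le_antisymm h (NeZero.one_le)
    have h2 : s = 1 := orderOf_eq_one_iff.1 h1
    rw [h2, one_pow]

/-- the character of `ZMod m` -/
abbrev ch (m : ℕ) [NeZero m] (a : ZMod m) : ℂ := ZMod.stdAddChar a

/-- the idempotent of the eigenvalue `ch a` of `s` -/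
def ep (s : G) (m : ℕ) [NeZero m] (a : ZMod m) : G → ℂ :=
  ∑ k : ZMod m, ((m : ℂ)⁻¹ * ch m (-(a * k))) • dl ℂ (sp s m k)

open Classical in
theorem dl_apply (z x : G) : dl ℂ z x = if x = z then 1 else 0 := rfl

theorem ep_apply (s : G) (m : ℕ) [NeZero m] (a : ZMod m) (g : G) :
    ep s m a g = ∑ k : ZMod m, ((m : ℂ)⁻¹ * ch m (-(a * k))) * dl ℂ (sp s m k) g := by
  unfold ep
  rw [Finset.sum_apply]
  rfl

theorem ep_supp {s : G} {m : ℕ} [NeZero m] (a : ZMod m) {K : Subgroup G} (hs : s ∈ K) {g : G}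
    (hg : g ∉ K) : ep s m a g = 0 := by
  rw [ep_apply]
  apply Finset.sum_eq_zero
  intro k _
  rw [dl_apply, if_neg, mul_zero]
  rintro rfl
  exact hg (K.pow_mem hs _)

theorem ep_inv {s : G} {m : ℕ} [NeZero m] (a : ZMod m) {v : G} (hv : v * s = s * v) (x : G) :
    ep s m a (v * x * v⁻¹) = ep s m a x := by
  rw [ep_apply, ep_apply]
  apply Finset.sum_congr rfl
  intro k _
  rw [dl_apply, dl_apply]
  have h : Commute v (sp s m k) := (show Commute v s from hv).pow_right _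
  have h1 : v * x * v⁻¹ = sp s m k ↔ x = sp s m k := by
    constructor
    · intro h2
      have h3 : x = v⁻¹ * sp s m k * v := by rw [← h2]; group
      rw [h3, mul_assoc, ← h.eq, inv_mul_cancel_left]
    · rintro rfl
      rw [h.eq, mul_inv_cancel_right]
  by_cases hx : x = sp s m k
  · rw [if_pos (h1.2 hx), if_pos hx]
  · rw [if_neg (mt h1.1 hx), if_neg hx]

variable [Finite G]

theorem ep_idem {s : G} {m : ℕ} [NeZero m] (hm : orderOf s = m) (a : ZMod m) :
    mulF (ep s m a) (ep s m a) = ep s m a := by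
  have hm0 : (m : ℂ) ≠ 0 := Nat.cast_ne_zero.2 (NeZero.ne m)
  apply ma_injective
  rw [ma_mul]
  have h0 : ma (ep s m a) = ∑ k : ZMod m, ((m : ℂ)⁻¹ * ch m (-(a * k))) •
      (MonoidAlgebra.single (sp s m k) 1 : MonoidAlgebra ℂ G) := by
    unfold ep
    rw [ma_sum]
    apply Finset.sum_congr rfl
    intro k _
    rw [ma_smul, ma_dl]
  rw [h0, Finset.sum_mul]
  simp only [Finset.mul_sum, smul_mul_smul_comm, MonoidAlgebra.single_mul_single, mul_one]
  have h1 : ∀ k : ZMod m, ∑ l : ZMod m, ((m : ℂ)⁻¹ * ch m (-(a * k)) *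
      ((m : ℂ)⁻¹ * ch m (-(a * l)))) •
        (MonoidAlgebra.single (sp s m k * sp s m l) 1 : MonoidAlgebra ℂ G) =
      ∑ j : ZMod m, ((m : ℂ)⁻¹ * ((m : ℂ)⁻¹ * ch m (-(a * j)))) •
        (MonoidAlgebra.single (sp s m j) 1 : MonoidAlgebra ℂ G) := by
    intro k
    rw [← Equiv.sum_comp (Equiv.addLeft k)
      (fun j => ((m : ℂ)⁻¹ * ((m : ℂ)⁻¹ * ch m (-(a * j)))) •
        (MonoidAlgebra.single (sp s m j) 1 : MonoidAlgebra ℂ G))]
    apply Finset.sum_congr rfl
    intro l _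
    rw [Equiv.coe_addLeft, sp_add hm]
    congr 1
    have h2 : ch m (-(a * (k + l))) = ch m (-(a * k)) * ch m (-(a * l)) := by
      unfold ch
      rw [← AddChar.map_add_eq_mul]
      congr 1
      ring
    rw [h2]
    ring
  rw [Finset.sum_congr rfl fun k _ => h1 k, Finset.sum_const, Finset.card_univ, ZMod.card,
    ← Nat.cast_smul_eq_nsmul ℂ, Finset.smul_sum]
  apply Finset.sum_congr rfl
  intro k _
  rw [smul_smul, ← mul_assoc, mul_inv_cancel₀ hm0, one_mul]

/-- `s` is the combination of the idempotents. -/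
theorem ep_sum {s : G} {m : ℕ} [NeZero m] (hm : orderOf s = m) (Φ : G → ℂ) :
    ∑ a : ZMod m, ch m a * ∑ᶠ t, ep s m a t * Φ t = Φ s := by
  classical
  have hm0 : (m : ℂ) ≠ 0 := Nat.cast_ne_zero.2 (NeZero.ne m)
  have hF : Fintype G := Fintype.ofFinite G
  have h1 : ∀ a : ZMod m, ∑ᶠ t, ep s m a t * Φ t =
      ∑ k : ZMod m, ((m : ℂ)⁻¹ * ch m (-(a * k))) * Φ (sp s m k) := by
    intro a
    rw [finsum_eq_sum_of_fintype]
    have h2 : ∀ t, ep s m a t * Φ t = ∑ k : ZMod m,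
        ((m : ℂ)⁻¹ * ch m (-(a * k))) * (if t = sp s m k then Φ t else 0) := by
      intro t
      rw [ep_apply, Finset.sum_mul]
      apply Finset.sum_congr rfl
      intro k _
      rw [dl_apply]
      split_ifs <;> ring
    rw [Finset.sum_congr rfl fun t _ => h2 t, Finset.sum_comm]
    apply Finset.sum_congr rfl
    intro k _
    rw [← Finset.mul_sum, Finset.sum_ite_eq' Finset.univ (sp s m k) Φ, if_pos (Finset.mem_univ _)]
  simp only [h1, Finset.mul_sum]
  rw [Finset.sum_comm]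
  have h3 : ∀ k : ZMod m, ∑ a : ZMod m, ch m a * ((m : ℂ)⁻¹ * ch m (-(a * k)) * Φ (sp s m k)) =
      if k = 1 then Φ (sp s m k) else 0 := by
    intro k
    have h4 : ∀ a : ZMod m, ch m a * ((m : ℂ)⁻¹ * ch m (-(a * k)) * Φ (sp s m k)) =
        ch m (a * (1 - k)) * ((m : ℂ)⁻¹ * Φ (sp s m k)) := by
      intro a
      have h5 : ch m (a * (1 - k)) = ch m a * ch m (-(a * k)) := by
        unfold ch
        rw [← AddChar.map_add_eq_mul]
        congr 1
        ring
      rw [h5]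
      ring
    rw [Finset.sum_congr rfl fun a _ => h4 a, ← Finset.sum_mul]
    have h6 := AddChar.sum_mulShift (1 - k) (ZMod.isPrimitive_stdAddChar m)
    unfold ch
    rw [h6]
    by_cases hk : k = 1
    · rw [if_pos hk, if_pos (by rw [hk, sub_self]), ZMod.card, ← mul_assoc, mul_inv_cancel₀ hm0,
        one_mul]
    · rw [if_neg hk, if_neg (fun h => hk (sub_eq_zero.1 h).symm), Nat.cast_zero, zero_mul]
  rw [Finset.sum_congr rfl fun k _ => h3 k, Finset.sum_ite_eq' Finset.univ (1 : ZMod m),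
    if_pos (Finset.mem_univ _), sp_one hm]

end grp

section lring

variable {M : Ideal (integralClosure ℤ ℂ)} [M.IsMaximal] {G : Type} [Group G] [Finite G]

theorem ch_int (m : ℕ) [NeZero m] (a : ZMod m) : IsIntegral ℤ (ch m a) := by
  apply IsIntegral.of_pow (n := m) (NeZero.pos m)
  have h : ch m a ^ m = 1 := by
    unfold ch
    rw [← AddChar.map_nsmul_eq_pow]
    have : m • a = 0 := by rw [nsmul_eq_mul, ZMod.natCast_self, zero_mul]
    rw [this, AddChar.map_zero_eq_one]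
  rw [h]
  exact isIntegral_one

theorem ch_RM (m : ℕ) [NeZero m] (a : ZMod m) : ch m a ∈ RM M := RM_of_int (ch_int m a)

theorem ch_conj (m : ℕ) [NeZero m] (a : ZMod m) : starRingEnd ℂ (ch m a) = ch m (-a) :=
  (AddChar.map_neg_eq_conj _ a).symm

theorem ep_RM {ℓ : ℕ} (hℓ : ℓ.Prime) (hlM : (ℓ : integralClosure ℤ ℂ) ∈ M) {s : G} {m : ℕ}
    [NeZero m] (hm : ¬ ℓ ∣ m) (a : ZMod m) (g : G) : ep s m a g ∈ RM M := by
  rw [ep_apply]
  apply Subring.sum_mem
  intro k _
  apply (RM M).mul_mem ((RM M).mul_mem (inv_nat_RM hℓ hlM hm) (ch_RM m _))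
  rw [dl_apply]
  split_ifs
  · exact (RM M).one_mem
  · exact (RM M).zero_mem

theorem mulF_RM {a c : G → ℂ} (ha : ∀ g, a g ∈ RM M) (hc : ∀ g, c g ∈ RM M) (g : G) :
    mulF a c g ∈ RM M := by
  have := Fintype.ofFinite G
  unfold mulF
  rw [finsum_eq_sum_of_fintype]
  exact Subring.sum_mem _ fun t _ => (RM M).mul_mem (ha t) (hc _)

theorem rd_mulF {a c : G → ℂ} (ha : ∀ g, a g ∈ RM M) (hc : ∀ g, c g ∈ RM M) :
    rd M (mulF a c) = mulF (rd M a) (rd M c) := by
  have := Fintype.ofFinite G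
  funext x
  unfold rd mulF
  rw [finsum_eq_sum_of_fintype, finsum_eq_sum_of_fintype,
    rr_sum _ _ fun t _ => (RM M).mul_mem (ha t) (hc _)]
  exact Finset.sum_congr rfl fun t _ => rr_mul (ha t) (hc _)

theorem rs_supp {F : Type} [Zero F] {C : Subgroup G} {a : G → F} (ha : ∀ x, x ∉ C → a x = 0) :
    rs C a = a := by
  funext x
  unfold rs
  split_ifs with h
  · rfl
  · exact (ha x h).symm

theorem rd_zero_of {a : G → ℂ} {x : G} (h : a x = 0) : rd M a x = 0 := by
  unfold rd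
  rw [h, rr_zero]

end lring

section main

variable {M : Ideal (integralClosure ℤ ℂ)} [M.IsMaximal] {G : Type} [Group G] [Finite G]

/-- `χ(u a b)` for `a b` the product in the group ring -/
theorem fv_mulF (a b : G → ℂ) (u : G) (χ : G → ℂ) :
    fv (mulF a b) u χ = ∑ᶠ t, a t * ∑ᶠ h, b h * χ (u * t * h) := by
  have hF : Fintype G := Fintype.ofFinite G
  unfold fv mulF
  simp only [finsum_eq_sum_of_fintype]
  simp only [Finset.sum_mul]
  rw [Finset.sum_comm]
  apply Finset.sum_congr rfl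
  intro t _
  rw [Finset.mul_sum, ← Equiv.sum_comp (Equiv.mulLeft t)]
  apply Finset.sum_congr rfl
  intro h _
  rw [Equiv.coe_mulLeft, inv_mul_cancel_left, mul_assoc, mul_assoc u t h]

theorem mem_Cu {u x : G} : x ∈ Cu u ↔ u * x = x * u := by
  unfold Cu
  rw [Subgroup.mem_centralizer_iff]
  simp

/-- the properties of the extended lift -/
theorem lift_props (hI : Pool.Agent.PP.KF.IdmStmt) {u : G} {b : G → FF M} (hb : Ix (Cu u) b) :
    (∀ g, g ∉ Cu u → H75.ext0 (Cu u) (eh M fun t : Cu u => b t) g = 0) ∧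
    (∀ g, H75.ext0 (Cu u) (eh M fun t : Cu u => b t) g ∈ RM M) ∧
    rd M (H75.ext0 (Cu u) (eh M fun t : Cu u => b t)) = b ∧
    mulF (H75.ext0 (Cu u) (eh M fun t : Cu u => b t)) (H75.ext0 (Cu u) (eh M fun t : Cu u => b t))
      = H75.ext0 (Cu u) (eh M fun t : Cu u => b t) ∧
    ∀ k ∈ Cu u, cj k (H75.ext0 (Cu u) (eh M fun t : Cu u => b t)) =
      H75.ext0 (Cu u) (eh M fun t : Cu u => b t) := by
  obtain ⟨h1, h2, -⟩ := hI M (Cu u) (fun t : Cu u => b t) hb.idem
  have hs := ext0_supp (Cu u) (eh M fun t : Cu u => b t)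
  have hsupp : ∀ g, g ∉ Cu u → H75.ext0 (Cu u) (eh M fun t : Cu u => b t) g = 0 := hs
  refine ⟨hsupp, ?_, ?_, ?_, ?_⟩
  · intro g
    by_cases hg : g ∈ Cu u
    · rw [show H75.ext0 (Cu u) (eh M fun t : Cu u => b t) g =
        H75.ext0 (Cu u) (eh M fun t : Cu u => b t) ((⟨g, hg⟩ : Cu u) : G) from rfl, ext0_apply]
      exact (h1 _).1
    · rw [hsupp g hg]; exact (RM M).zero_mem
  · funext g
    by_cases hg : g ∈ Cu u
    · unfold rd
      rw [show H75.ext0 (Cu u) (eh M fun t : Cu u => b t) g =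
        H75.ext0 (Cu u) (eh M fun t : Cu u => b t) ((⟨g, hg⟩ : Cu u) : G) from rfl, ext0_apply]
      exact (h1 _).2
    · rw [rd_zero_of (hsupp g hg), hb.supp g hg]
  · rw [← ext0_mulF, h2.2]
  · intro k hk
    rw [cj_eq_iff]
    intro x
    by_cases hx : x ∈ Cu u
    · have hkx : k * x * k⁻¹ ∈ Cu u := (Cu u).mul_mem ((Cu u).mul_mem hk hx) ((Cu u).inv_mem hk)
      rw [show H75.ext0 (Cu u) (eh M fun t : Cu u => b t) (k * x * k⁻¹) =
        H75.ext0 (Cu u) (eh M fun t : Cu u => b t) ((⟨k * x * k⁻¹, hkx⟩ : Cu u) : G) from rfl,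
        ext0_apply]
      rw [show H75.ext0 (Cu u) (eh M fun t : Cu u => b t) x =
        H75.ext0 (Cu u) (eh M fun t : Cu u => b t) ((⟨x, hx⟩ : Cu u) : G) from rfl,
        ext0_apply]
      exact h2.1 ⟨x, hx⟩ ⟨k, hk⟩
    · rw [hsupp x hx, hsupp]
      intro h
      apply hx
      have h3 := (Cu u).mul_mem ((Cu u).mul_mem ((Cu u).inv_mem hk) h) hk
      rwa [show k⁻¹ * (k * x * k⁻¹) * k = x by group] at h3

/-- the lift of the product -/
theorem il_of {ℓ : ℕ} (hℓ : ℓ.Prime) (hlM : (ℓ : integralClosure ℤ ℂ) ∈ M)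
    (hI : Pool.Agent.PP.KF.IdmStmt) {s : G} {m : ℕ} [NeZero m] (hm : orderOf s = m)
    (hml : ¬ ℓ ∣ m) {u : G} (hus : u * s = s * u) {b : G → FF M} (hb : Ix (Cu u) b)
    (a : ZMod m) :
    Il M u (mulF (rs (Cu u) (rd M (ep s m a))) b)
      (mulF (ep s m a) (H75.ext0 (Cu u) (eh M fun t : Cu u => b t))) := by
  obtain ⟨h1, h2, h3, h4, h5⟩ := lift_props hI hb
  set B := H75.ext0 (Cu u) (eh M fun t : Cu u => b t) with hB
  have hsC : s ∈ Cu u := mem_Cu.2 hus
  have huC : u ∈ Cu u := mem_Cu.2 rfl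
  have hes : ∀ g, g ∉ Cu u → ep s m a g = 0 := fun g hg => ep_supp a hsC hg
  have heR : ∀ g, ep s m a g ∈ RM M := ep_RM hℓ hlM hml a
  have hcomm : mulF (ep s m a) B = mulF B (ep s m a) := mulF_comm_of hes h5
  refine ⟨mulF_RM heR h2, ?_, ?_, ?_⟩
  · calc mulF (mulF (ep s m a) B) (mulF (ep s m a) B)
        = mulF (ep s m a) (mulF (mulF B (ep s m a)) B) := by
          rw [mulF_assoc, mulF_assoc]
      _ = mulF (ep s m a) (mulF (mulF (ep s m a) B) B) := by rw [← hcomm]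
      _ = mulF (mulF (ep s m a) (ep s m a)) (mulF B B) := by
          rw [mulF_assoc, mulF_assoc]
      _ = mulF (ep s m a) B := by rw [ep_idem hm, h4]
  · have h6 : cj u (mulF (ep s m a) B) = mulF (ep s m a) B := by
      rw [cj_mulF, h5 u huC, (cj_eq_iff u _).2 (fun x => ep_inv a hus x)]
    exact (cj_eq_iff u _).1 h6
  · rw [rs_supp (a := rd M (mulF (ep s m a) B)) (fun x hx => rd_zero_of (mulF_supp _ hes h1 x hx)),
      rs_supp (a := rd M (ep s m a)) (fun x hx => rd_zero_of (hes x hx)), rd_mulF heR h2, h3]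

end main

/-- SPS -/
theorem sps (hT : TvsStmt) (hF : FczStmt) (hZ : T5.ZimStmt) (hI : Pool.Agent.PP.KF.IdmStmt) :
    SpsStmt := by
  intro ℓ hℓ M _ hlM G _ _ ι _ c β hβ χ hχ hH ψ hψ P hP s hs hr κ hκ
  classical
  have hFG : Fintype G := Fintype.ofFinite G
  have hFP : Fintype P := Fintype.ofFinite P
  have hFι : Fintype ι := Fintype.ofFinite ι
  obtain ⟨m, hm⟩ : ∃ m, orderOf s = m := ⟨_, rfl⟩
  have hm0 : m ≠ 0 := by rw [← hm]; exact (orderOf_pos s).ne'
  have : NeZero m := ⟨hm0⟩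
  have hml : ¬ ℓ ∣ m := by
    intro h
    have h1 : (orderOf s).Coprime ℓ := hr
    rw [hm] at h1
    exact hℓ.out.one_lt.ne' (Nat.eq_one_of_dvd_coprimes h1 h dvd_rfl)
  have hcomm : ∀ u ∈ P, u * s = s * u := fun u hu => Subgroup.mem_centralizer_iff.1 hs u hu
  have hcl : ∀ x y : G, χ (y * x * y⁻¹) = χ x := fun x y => irr_conj hχ x y
  have hEl : ∀ u ∈ P, El ℓ u := by
    intro u hu
    obtain ⟨n, hn⟩ := hP ⟨u, hu⟩
    exact ⟨n, by simpa using congrArg Subtype.val hn⟩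
  -- the function `fu`
  have h1 : ∀ u ∈ P, fu M c β χ u s = ∑ a : ZMod m, ch m a * fi M c β (rd M (ep s m a)) χ u := by
    intro u hu
    unfold fu fi
    simp only [finsum_eq_sum_of_fintype, Finset.mul_sum]
    rw [Finset.sum_comm]
    apply Finset.sum_congr rfl
    intro k _
    have h2 : ∀ a : ZMod m, tv M u (mulF (rs (Cu u) (rd M (ep s m a))) (β k u)) χ =
        ∑ᶠ t, ep s m a t * ∑ᶠ h, H75.ext0 (Cu u) (eh M fun t : Cu u => β k u t) h *
          χ (u * t * h) := by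
      intro a
      rw [(hT ℓ M hlM G u (hEl u hu)).2.1 _ _
        (il_of hℓ.out hlM hI hm hml (hcomm u hu) (hβ.ix k u) a) χ hcl, fv_mulF]
    have h3 := ep_sum hm (fun t => ∑ᶠ h, H75.ext0 (Cu u) (eh M fun t : Cu u => β k u t) h *
          χ (u * t * h))
    have h4 : gv M (Cu u) (u * s) (β k u) χ =
        ∑ᶠ h, H75.ext0 (Cu u) (eh M fun t : Cu u => β k u t) h * χ (u * s * h) := by
      unfold gv gbv
      rw [sum_sub (Cu u) (fun h => H75.ext0 (Cu u) (eh M fun t : Cu u => β k u t) h *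
        χ (u * s * h)) (fun x hx => by rw [ext0_supp _ _ x hx, zero_mul])]
      apply finsum_congr
      intro t
      rw [ext0_apply]
    rw [h4, ← h3, Finset.mul_sum]
    apply Finset.sum_congr rfl
    intro a _
    rw [h2 a]
    ring
  have h5 : ∀ u ∈ P, ψ (u * s) = ∑ a : ZMod m, ch m a * fv (ep s m a) u ψ := by
    intro u _
    exact (ep_sum hm (fun t => ψ (u * t))).symm
  have hIp : ∀ a : ZMod m, Ip M P (ep s m a) := fun a =>
    ⟨ep_RM hℓ.out hlM hml a, ep_idem hm a, fun v hv x => ep_inv a (hcomm v hv) x⟩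
  have hfi : ∀ a : ZMod m, Cf M P (fi M c β (rd M (ep s m a)) χ) := by
    intro a
    apply hH P hP
    · rw [← rd_mulF (hIp a).rm (hIp a).rm, (hIp a).id]
    · intro v hv x
      unfold rd
      rw [(hIp a).iv v hv x]
  have hz : ∀ b : ZMod m, (fun u : P => starRingEnd ℂ (fv (ep s m b) (u : G) ψ) * κ u) ∈ ZI P := by
    intro b
    have h6 := (hZ P _ (hF M G P _ (hIp b) ψ hψ) κ hκ).2
    exact (hZ P _ h6 κ hκ).1
  have h7 : (Nat.card P : ℂ)⁻¹ * ∑ᶠ u : P, fu M c β χ u s * starRingEnd ℂ (ψ (u * s)) * κ u =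
      ∑ a : ZMod m, ∑ b : ZMod m, ch m a * ch m (-b) * ((Nat.card P : ℂ)⁻¹ *
        ∑ᶠ u : P, fi M c β (rd M (ep s m a)) χ u *
          (starRingEnd ℂ (fv (ep s m b) (u : G) ψ) * κ u)) := by
    simp only [finsum_eq_sum_of_fintype, Finset.mul_sum]
    have h8 : ∀ u : P, (Nat.card P : ℂ)⁻¹ * (fu M c β χ u s * starRingEnd ℂ (ψ (u * s)) * κ u) =
        ∑ a : ZMod m, ∑ b : ZMod m, ch m a * ch m (-b) * ((Nat.card P : ℂ)⁻¹ *
          (fi M c β (rd M (ep s m a)) χ u *
            (starRingEnd ℂ (fv (ep s m b) (u : G) ψ) * κ u))) := by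
      intro u
      rw [h1 u u.2, h5 u u.2, map_sum]
      simp only [map_mul, ch_conj]
      rw [Finset.sum_mul_sum, Finset.sum_mul, Finset.mul_sum]
      apply Finset.sum_congr rfl
      intro a _
      rw [Finset.sum_mul, Finset.mul_sum]
      apply Finset.sum_congr rfl
      intro b _
      ring
    rw [Finset.sum_congr rfl fun u _ => h8 u, Finset.sum_comm]
    apply Finset.sum_congr rfl
    intro a _
    rw [Finset.sum_comm]
  rw [h7]
  apply Subring.sum_mem
  intro a _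
  apply Subring.sum_mem
  intro b _
  exact (RM M).mul_mem ((RM M).mul_mem (ch_RM m a) (ch_RM m (-b))) (hfi a _ (hz b))

end Pool.Agent.PP.T10.H44
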